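import Pool.Agent.J4H3.EQ.Stm

/-!
# Project EQ, piece LOW: the lower bound for the number of zeros in strips of width proportional to `log T`
-/

set_option autoImplicit false
set_option maxHeartbeats 400000

namespace Pool.Agent.J4H28.EQ

open Complex MeasureTheory Filter Topology Set
open Pool.Agent.J4H4.NG (EE gam ell S_LOC S_REPR S_UPB S_FAR S_GOOD S_REP S_UPT S_GRO)
open Pool.Agent.J4H3.EQ

theorem rect_compact (x1 x2 y1 y2 : ℝ) : IsCompact (Rect x1 x2 y1 y2) := by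
  have h : Rect x1 x2 y1 y2 = (Icc x1 x2) ×ℂ (Icc y1 y2) := by
    ext w
    simp only [Rect, mem_setOf_eq, mem_reProdIm, mem_Icc]
    tauto
  rw [h]
  exact isCompact_Icc.reProdIm isCompact_Icc

theorem zeros_finite {f : ℂ → ℂ} (hf : Differentiable ℂ f) (h0 : ∃ z, f z ≠ 0) {K : Set ℂ} (hK : IsCompact K) :
    {w | w ∈ K ∧ f w = 0}.Finite := by
  by_contra hinf
  have hinf' : {w | w ∈ K ∧ f w = 0}.Infinite := hinf
  obtain ⟨z, hzK, hz⟩ := hinf'.exists_accPt_of_subset_isCompact hK (fun w hw => hw.1)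
  rw [accPt_iff_frequently_nhdsNE] at hz
  have han : AnalyticOnNhd ℂ f univ := fun w _ => hf.analyticAt w
  have := han.eqOn_zero_of_preconnected_of_frequently_eq_zero isPreconnected_univ (mem_univ z)
    (hz.mono fun w hw => hw.2)
  obtain ⟨y, hy⟩ := h0
  exact hy (this (mem_univ y))

theorem gam_ne_zero (v : ℝ) : gam (2 + I * v) ≠ 0 := by
  unfold gam
  have hre : (2 + I * (v : ℂ)).re = 2 := by simp
  have h1 : (2 + I * (v : ℂ)) ≠ 0 := by
    intro h
    have := congrArg Complex.re h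
    rw [hre] at this
    simp at this
  have h2 : (2 + I * (v : ℂ)) - 1 ≠ 0 := by
    intro h
    have := congrArg Complex.re h
    rw [sub_re, hre] at this
    norm_num at this
  have h3 : Complex.Gammaℝ (2 + I * (v : ℂ)) ≠ 0 := Complex.Gammaℝ_ne_zero_of_re_pos (by rw [hre]; norm_num)
  exact mul_ne_zero (div_ne_zero (mul_ne_zero h1 h2) two_ne_zero) h3

theorem EE_nz (hFAR : S_FAR) {a : ℝ} (ha : 0 < a) : ∃ z, EE a z ≠ 0 := by
  obtain ⟨c, V₀, hc, hV, h⟩ := hFAR a ha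
  have h1 := h V₀ le_rfl
  have h2 : 0 < c * ‖gam (2 + I * V₀)‖ := mul_pos hc (norm_pos_iff.mpr (gam_ne_zero V₀))
  exact ⟨_, norm_pos_iff.mp (lt_of_lt_of_le h2 h1)⟩

theorem EE_diff (hREP : S_REP) {a : ℝ} (ha : 0 < a) : Differentiable ℂ (EE a) := by
  have h := (hREP (4 * a) (by positivity)).2.1
  rwa [show 4 * a / 4 = a by ring] at h

/-- the elementary inequality at the end -/
theorem fin_ineq {a α β ε T l N : ℝ} (ha : 0 < a) (hα : -a ≤ α) (hβ : β ≤ a) (hε : 0 < ε)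
    (hb : 4 * Real.pi * a * ε < β - α) (hT : 0 < T) (hl : 0 < l) 
    (h1 : 2 * a * l ≤ T) (h2 : 16 * a ≤ Real.pi * ε * (Real.pi * a * ε / 2) ^ 2 * l ^ 2)
    (h : (β - α - 2 * (Real.pi * a * ε / 2)) * l * (T - 2 * (Real.pi * a * ε / 2) * l) *
      ((Real.pi * a * ε / 2) ^ 2 * l ^ 2 / (8 * a) - 1) ≤
      N * (Real.pi * ((Real.pi * a * ε / 2) * l) ^ 2 / 2) + ε * Real.pi * (Real.pi * a * ε / 2) ^ 2 / 8 * T * l ^ 3) :
    ((β - α) / (4 * Real.pi * a) - ε) * T * l ≤ N := by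
  have hpi := Real.pi_pos
  set ρ := Real.pi * a * ε / 2 with hρ
  have hρ0 : 0 < ρ := by positivity
  have key : ((β - α) / (4 * Real.pi * a) - ε) * T * l * (Real.pi * (ρ * l) ^ 2 / 2) ≤ N * (Real.pi * (ρ * l) ^ 2 / 2) := by
    set B := β - α - 2 * ρ with hB
    have hB0 : 0 ≤ B := by rw [hB, hρ]; nlinarith [mul_pos (mul_pos hpi ha) hε]
    have hB1 : B ≤ 2 * a := by rw [hB]; linarith
    have e1 : ((β - α) / (4 * Real.pi * a) - ε) * T * l * (Real.pi * (ρ * l) ^ 2 / 2) =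
      (B * ρ ^ 2 / (8 * a) + Real.pi * ε * ρ ^ 2 / 8 - Real.pi * ε * ρ ^ 2 / 2) * (T * l ^ 3) := by
      have : β - α = B + 2 * ρ := by rw [hB]; ring
      rw [this]
      have e2 : (2 * ρ) / (4 * Real.pi * a) = ε / 4 := by rw [hρ]; field_simp
      have e3 : (B + 2 * ρ) / (4 * Real.pi * a) = B / (4 * Real.pi * a) + ε / 4 := by rw [add_div, e2]
      rw [e3]
      field_simp
      ring
    have e4 : B * l * (T - 2 * ρ * l) * (ρ ^ 2 * l ^ 2 / (8 * a) - 1) =
      B * ρ ^ 2 / (8 * a) * (T * l ^ 3) - B * T * l - B * ρ ^ 3 * l ^ 4 / (4 * a) + 2 * B * ρ * l ^ 2 := by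
      field_simp
      ring
    rw [e4] at h
    have b1 : B * T * l ≤ Real.pi * ε * ρ ^ 2 / 8 * (T * l ^ 3) := by
      have : B * (T * l) ≤ 2 * a * (T * l) := mul_le_mul_of_nonneg_right hB1 (by positivity)
      have h3 : 16 * a * (T * l) ≤ Real.pi * ε * ρ ^ 2 * l ^ 2 * (T * l) := mul_le_mul_of_nonneg_right h2 (by positivity)
      nlinarith
    have b2 : B * ρ ^ 3 * l ^ 4 / (4 * a) ≤ Real.pi * ε * ρ ^ 2 / 8 * (T * l ^ 3) := by
      have h4 : B * (ρ ^ 3 * l ^ 4 / (4 * a)) ≤ 2 * a * (ρ ^ 3 * l ^ 4 / (4 * a)) :=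
        mul_le_mul_of_nonneg_right hB1 (by positivity)
      have h5 : 2 * a * (ρ ^ 3 * l ^ 4 / (4 * a)) = ρ ^ 3 * l ^ 4 / 2 := by field_simp; ring
      have h6 : ρ ^ 3 * l ^ 4 / 2 = Real.pi * ε * ρ ^ 2 / 8 * l ^ 3 * (2 * a * l) := by
        rw [show ρ ^ 3 = ρ ^ 2 * ρ by ring]
        nth_rewrite 2 [hρ]
        ring
      have h7 : Real.pi * ε * ρ ^ 2 / 8 * l ^ 3 * (2 * a * l) ≤ Real.pi * ε * ρ ^ 2 / 8 * l ^ 3 * T :=
        mul_le_mul_of_nonneg_left h1 (by positivity)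
      calc B * ρ ^ 3 * l ^ 4 / (4 * a) = B * (ρ ^ 3 * l ^ 4 / (4 * a)) := by ring
        _ ≤ _ := h4
        _ = _ := h5
        _ = _ := h6
        _ ≤ _ := h7
        _ = _ := by ring
    have b3 : 0 ≤ 2 * B * ρ * l ^ 2 := by positivity
    rw [e1]
    nlinarith
  exact le_of_mul_le_mul_right key (by positivity)

theorem t_LOW : J_LOW := by
  intro hCNT hCAV hUPP hMASS hFAR hREP a α β ε ha hα hαβ hβ hε
  have hpi := Real.pi_pos
  by_cases hb : β - α ≤ 4 * Real.pi * a * ε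
  · refine ⟨2, le_rfl, fun T hT => ⟨∅, by simp, ?_⟩⟩
    have hlog : 0 ≤ Real.log T := Real.log_nonneg (by linarith)
    have h1 : (β - α) / (4 * Real.pi * a) - ε ≤ 0 := by
      rw [sub_nonpos, div_le_iff₀ (by positivity)]
      linarith
    simp only [Finset.sum_empty]
    have : 0 ≤ T * Real.log T := by positivity
    nlinarith
  push Not at hb
  set ρ := Real.pi * a * ε / 2 with hρ
  have hρ0 : 0 < ρ := by positivity
  obtain ⟨A, T₁, hA, hT₁, hU⟩ := hUPP a a ha ha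
  obtain ⟨T₂, hT₂, hC⟩ := hCAV.2 a ρ ha hρ0
  obtain ⟨T₃, hT₃, hM⟩ := hMASS a A (ε * Real.pi * ρ ^ 2 / 8) ha (by positivity)
  have hev : ∀ᶠ T : ℝ in atTop, 2 ≤ T ∧ T₁ ≤ T ∧ T₂ ≤ T ∧ T₃ ≤ T ∧ 2 * a * Real.log T ≤ T ∧ 2 * ρ * Real.log T ≤ T ∧
      16 * a ≤ Real.pi * ε * ρ ^ 2 * Real.log T ^ 2 ∧ 8 * a ≤ ρ ^ 2 * Real.log T ^ 2 := by
    have hlo : Tendsto (fun T : ℝ => Real.log T / T) atTop (𝓝 0) := by
      have := Real.isLittleO_log_id_atTop.tendsto_div_nhds_zero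
      simpa using this
    have hl : Tendsto Real.log atTop atTop := Real.tendsto_log_atTop
    have hl2 : Tendsto (fun T => Real.log T ^ 2) atTop atTop := (tendsto_pow_atTop two_ne_zero).comp hl
    have e1 : ∀ c : ℝ, 0 < c → ∀ᶠ T : ℝ in atTop, c * Real.log T ≤ T := by
      intro c hc
      have := hlo.eventually_lt_const (show (0:ℝ) < 1 / c by positivity)
      filter_upwards [this, eventually_gt_atTop 0] with T h1 h2
      rw [div_lt_div_iff₀ h2 hc] at h1
      linarith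
    filter_upwards [eventually_ge_atTop 2, eventually_ge_atTop T₁, eventually_ge_atTop T₂, eventually_ge_atTop T₃,
      e1 (2 * a) (by positivity), e1 (2 * ρ) (by positivity), (hl2.const_mul_atTop (show 0 < Real.pi * ε * ρ ^ 2 by positivity)).eventually_ge_atTop (16 * a),
      (hl2.const_mul_atTop (show 0 < ρ ^ 2 by positivity)).eventually_ge_atTop (8 * a)] with T h1 h2 h3 h4 h5 h6 h7 h8
    exact ⟨h1, h2, h3, h4, h5, h6, h7, h8⟩
  obtain ⟨T₀, hT₀⟩ := eventually_atTop.mp hev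
  refine ⟨T₀, (hT₀ T₀ le_rfl).1, fun T hT => ?_⟩
  obtain ⟨g1, g2, g3, g4, g5, g6, g7, g8⟩ := hT₀ T hT
  have hlog : 0 < Real.log T := Real.log_pos (by linarith)
  set l := Real.log T with hl
  have hfin := zeros_finite (EE_diff hREP ha) (EE_nz hFAR ha) (rect_compact (α * l) (β * l) T (2 * T))
  refine ⟨hfin.toFinset, ?_, ?_⟩
  · intro w hw
    rw [Set.Finite.mem_toFinset] at hw
    exact ⟨hw.2, hw.1.1, hw.1.2.1, hw.1.2.2.1, hw.1.2.2.2⟩
  · have hsub : Rect (α * l) (β * l) T (2 * T) ⊆ Rect (-(a * l)) (a * l) T (2 * T) := by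
      intro w hw
      exact ⟨by have := hw.1; nlinarith, by have := hw.2.1; nlinarith, hw.2.2.1, hw.2.2.2⟩
    have hb' : 2 * ρ < β - α := by rw [hρ]; nlinarith [mul_pos (mul_pos hpi ha) hε]
    have hcnt := hCNT (EE a) (fun w => pot a w + A * l) (α * l + ρ * l) (β * l - ρ * l) (T + ρ * l) (2 * T - ρ * l) (ρ * l)
      ((ρ * l) ^ 2 / (8 * a) - 1) (ε * Real.pi * ρ ^ 2 / 8 * T * l ^ 3) hfin.toFinset (EE_diff hREP ha) (EE_nz hFAR ha)
      ((hCAV.1 a).add continuous_const) (by positivity) (by nlinarith) (by nlinarith)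
      (by rw [sub_nonneg, le_div_iff₀ (by positivity)]; nlinarith) (by positivity)
    rw [show α * l + ρ * l - ρ * l = α * l by ring, show β * l - ρ * l + ρ * l = β * l by ring,
      show T + ρ * l - ρ * l = T by ring, show 2 * T - ρ * l + ρ * l = 2 * T by ring] at hcnt
    have hcnt' := hcnt ?_ ?_ ?_ ?_
    · refine fin_ineq ha hα hβ hε (by linarith) (by linarith) hlog g5 g7 ?_
      rw [← hρ, ← mul_pow]
      rwa [show β * l - ρ * l - (α * l + ρ * l) = (β - α - 2 * ρ) * l by ring,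
          show 2 * T - ρ * l - (T + ρ * l) = T - 2 * ρ * l by ring] at hcnt'
    · intro w hw hw0
      have h1 := hsub hw
      refine hU T g2 w ?_ ?_ hw0
      · rw [abs_le]; exact ⟨by linarith [h1.1], h1.2.1⟩
      · linarith [h1.2.2.1]
    · intro w hw hw0
      rw [Set.Finite.mem_toFinset]
      exact ⟨hw, hw0⟩
    · intro c hc
      have h1 := hC T g3 c (ρ * l) (by nlinarith [hc.2.2.1, mul_pos hρ0 hlog]) (by positivity) le_rfl
      rw [abs_le] at h1
      have hint : CircleIntegrable (pot a) c (ρ * l) := (hCAV.1 a).continuousOn.circleIntegrable'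
      have hav : Real.circleAverage (fun w => pot a w + A * l) c (ρ * l) = Real.circleAverage (pot a) c (ρ * l) + A * l := by
        rw [Real.circleAverage_fun_add hint (circleIntegrable_const _ _ _), Real.circleAverage_const]
      rw [hav]
      linarith [h1.1]
    · refine le_trans (lintegral_mono_set hsub) ?_
      exact hM T g4

end Pool.Agent.J4H28.EQ
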